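import Pool.Agent.G02.StmtsR
import Pool.Agent.Helper34_GT.F_TOP

/-!
# TOP: the rank of the generic fibre and of infinitely many fibres
-/

set_option autoImplicit false

namespace Pool.Agent.G02.H64

open Polynomial Pool.Agent.NJ Pool.Agent.GT.F

/-- a polynomial which is a square in `ℚ(T)` is a square at each `t` -/
theorem sq_eval {p : ℚ[X]} (h : IsSquare (algebraMap ℚ[X] (RatFunc ℚ) p)) (t : ℚ) :
    IsSquare (p.eval t) := by
  obtain ⟨g, hg⟩ := h
  have hint : IsIntegral ℚ[X] (g ^ 2) := by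
    rw [pow_two, ← hg]
    exact isIntegral_algebraMap
  have hint2 : IsIntegral ℚ[X] g := IsIntegral.of_pow (n := 2) (by norm_num) hint
  obtain ⟨q, hq⟩ := IsIntegrallyClosed.isIntegral_iff.mp hint2
  have hpq : p = q * q := by
    apply IsFractionRing.injective ℚ[X] (RatFunc ℚ)
    rw [hg, map_mul, hq]
  exact ⟨q.eval t, by rw [hpq, eval_mul]⟩

theorem top (tr2 : Pool.Agent.G02.Tr2Stmt) (rk2 : Pool.Agent.G02.Rk2Stmt)
    (nsq : Pool.Agent.G02.NsqStmt) (fg : Pool.Agent.GT.F.FgStmt)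
    (spS : Pool.Agent.GT.F.SpStmt) (div : Pool.Agent.GT.F.DivStmt)
    (alg : Pool.Agent.GT.F.AlgStmt) : Pool.Agent.G02.TopStmt := by
  intro E e a b B hΔ hRt hb hab hbs hB R hT0 hle
  have hT1 : ∀ (d : DecidableEq ℚ) (n : ℕ), {t : ℚ | (fib E t).Δ ≠ 0 ∧
      ¬ IsSquare ((a ^ 2 - 4 * b).eval t) ∧
      @Ix (fib E t).toAffine.Point (@WeierstrassCurve.Affine.Point.instAddCommGroup ℚ _
        (fib E t).toAffine d) (2 * 2 ^ R) ∧ Sep B t n}.Infinite := by
    intro d n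
    rw [Subsingleton.elim d instDecidableEqRat]
    exact hT0 n
  let dq : DecidableEq ℚ := fun a b => Classical.propDecidable (a = b)
  let dr : DecidableEq (RatFunc ℚ) := fun a b => Classical.propDecidable (a = b)
  have hT : ∀ n : ℕ, {t : ℚ | (fib E t).Δ ≠ 0 ∧ ¬ IsSquare ((a ^ 2 - 4 * b).eval t) ∧
      Ix (fib E t).toAffine.Point (2 * 2 ^ R) ∧ Sep B t n}.Infinite := hT1 dq
  have hinj : Function.Injective (algebraMap ℚ[X] (RatFunc ℚ)) :=
    IsFractionRing.injective ℚ[X] (RatFunc ℚ)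
  -- finitely many non-doubles
  have key : ∀ F : Finset (gen E).toAffine.Point, (∀ P ∈ F, ¬ ∃ Q, P = Q + Q) →
      ∃ (n : ℕ) (Z : Finset ℚ), ∀ t : ℚ, t ∉ Z → Sep B t n →
        ∀ sp : (gen E).toAffine.Point →+ (fib E t).toAffine.Point, IsSp E t sp →
          ∀ P ∈ F, ¬ ∃ Q, sp P = Q + Q := by
    classical
    intro F
    induction F using Finset.induction_on with
    | empty =>
      intro _
      exact ⟨0, ∅, fun t _ _ sp _ P hP => absurd hP (Finset.notMem_empty P)⟩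
    | insert P F hPF ih =>
      intro hF
      obtain ⟨n, Z, hn⟩ := ih (fun Q hQ => hF Q (Finset.mem_insert_of_mem hQ))
      obtain ⟨n', Z', hn'⟩ := nsq E e a b B hΔ hRt hb hab hbs hB P
        (hF P (Finset.mem_insert_self P F))
      refine ⟨max n n', Z ∪ Z', ?_⟩
      intro t ht hs sp hsp Q hQ
      rw [Finset.mem_union, not_or] at ht
      rcases Finset.mem_insert.mp hQ with rfl | hQ
      · exact hn' t ht.2 (Pool.Agent.GT.F.H34.sep_mono (le_max_right n n') hs) sp hsp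
      · exact hn t ht.1 (Pool.Agent.GT.F.H34.sep_mono (le_max_left n n') hs) sp hsp Q hQ
  -- the index of the doubles over `ℚ(T)`
  have hIx : Ix (gen E).toAffine.Point (2 * 2 ^ R) := by
    classical
    intro S hS
    obtain ⟨n, Z, hn⟩ := key (((S ×ˢ S).filter (fun p => p.1 ≠ p.2)).image
      (fun p => p.1 - p.2)) (by
        intro P hP
        rw [Finset.mem_image] at hP
        obtain ⟨⟨c, d⟩, hcd, rfl⟩ := hP
        rw [Finset.mem_filter, Finset.mem_product] at hcd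
        rintro ⟨Q, hQ⟩
        exact hcd.2 (hS c hcd.1.1 d hcd.1.2 ⟨Q, by rw [← hQ]; abel⟩))
    obtain ⟨t, ht, htZ⟩ := (hT n).exists_notMem_finset Z
    obtain ⟨sp, hsp⟩ := spS E t ht.1
    have hd := hn t htZ ht.2.2.2 sp hsp
    have hd' : ∀ c ∈ S, ∀ d ∈ S, (∃ q, sp (c - d) = q + q) → c = d := by
      intro c hc d hd2 hq
      by_contra hne
      exact hd (c - d) (Finset.mem_image.mpr ⟨(c, d), Finset.mem_filter.mpr
        ⟨Finset.mem_product.mpr ⟨hc, hd2⟩, hne⟩, rfl⟩) hq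
    have hinjS : Set.InjOn sp S := by
      intro c hc d hd2 hcd
      refine hd' c hc d hd2 ⟨0, ?_⟩
      rw [map_sub, hcd, sub_self, add_zero]
    rw [← Finset.card_image_of_injOn hinjS]
    refine ht.2.2.1 (S.image sp) ?_
    intro c' hc' d' hd2' hq
    rw [Finset.mem_image] at hc' hd2'
    obtain ⟨c, hc, rfl⟩ := hc'
    obtain ⟨d, hd2, rfl⟩ := hd2'
    obtain ⟨q, hq⟩ := hq
    rw [hd' c hc d hd2 ⟨q, by rw [map_sub, hq]; abel⟩]
  obtain ⟨S, hS, hmax⟩ := Pool.Agent.GT.F.H34.exists_max hIx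
  classical
  obtain ⟨n, Z, hn⟩ := key (S.filter (fun P => ¬ ∃ Q, P = Q + Q))
    (fun P hP => (Finset.mem_filter.mp hP).2)
  -- the zeros of `b`
  have hbt : ∀ t : ℚ, t ∉ b.roots.toFinset → b.eval t ≠ 0 := by
    intro t ht h0
    exact ht (Multiset.mem_toFinset.mpr ((mem_roots hb).mpr h0))
  -- the comparison at almost all good parameters
  have hcomp : ∀ t ∈ {t : ℚ | (fib E t).Δ ≠ 0 ∧ ¬ IsSquare ((a ^ 2 - 4 * b).eval t) ∧
      Ix (fib E t).toAffine.Point (2 * 2 ^ R) ∧ Sep B t n} \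
      ((Z ∪ b.roots.toFinset : Finset ℚ) : Set ℚ),
      rk (gen E) ≤ rk (fib E t) ∧ rk (fib E t) ≤ R := by
    rintro t ⟨ht, htZ⟩
    rw [Finset.mem_coe, Finset.mem_union, not_or] at htZ
    have hI := ht.2.2.1
    have hRf : Rt1 (fib E t) (e.eval t) (a.eval t) (b.eval t) := hRt.map (evalRingHom t)
    have hRg : Rt1 (gen E) (algebraMap ℚ[X] (RatFunc ℚ) e) (algebraMap ℚ[X] (RatFunc ℚ) a)
      (algebraMap ℚ[X] (RatFunc ℚ) b) := hRt.map (algebraMap ℚ[X] (RatFunc ℚ))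
    have hsqf : ¬ IsSquare (a.eval t ^ 2 - 4 * b.eval t) := by
      have h1 := ht.2.1
      have h2 : (a ^ 2 - 4 * b).eval t = a.eval t ^ 2 - 4 * b.eval t := by
        simp [eval_sub, eval_pow, eval_mul]
      rwa [h2] at h1
    have hsqg : ¬ IsSquare (algebraMap ℚ[X] (RatFunc ℚ) a ^ 2 -
        4 * algebraMap ℚ[X] (RatFunc ℚ) b) := by
      intro h
      apply ht.2.1
      apply sq_eval
      have h2 : algebraMap ℚ[X] (RatFunc ℚ) (a ^ 2 - 4 * b) =
          algebraMap ℚ[X] (RatFunc ℚ) a ^ 2 - 4 * algebraMap ℚ[X] (RatFunc ℚ) b := by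
        simp only [map_sub, map_mul, map_pow, map_ofNat]
      rwa [h2]
    have hbg : algebraMap ℚ[X] (RatFunc ℚ) b ≠ 0 := (map_ne_zero_iff _ hinj).2 hb
    obtain ⟨tor1, tor2, tor3⟩ := tr2 ℚ (fib E t) (e.eval t) (a.eval t) (b.eval t) hRf
      (hbt t htZ.2) hsqf
    obtain ⟨gor1, gor2, -⟩ := tr2 (RatFunc ℚ) (gen E) _ _ _ hRg hbg hsqg
    obtain ⟨sp, hsp⟩ := spS E t ht.1
    have hd := hn t htZ.1 ht.2.2.2 sp hsp
    have hden : (algebraMap ℚ[X] (RatFunc ℚ) e).denom.eval t ≠ 0 := by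
      rw [RatFunc.denom_algebraMap, eval_one]
      exact one_ne_zero
    have hev : ev t (algebraMap ℚ[X] (RatFunc ℚ) e) = e.eval t := by
      rw [ev, RatFunc.denom_algebraMap, RatFunc.num_algebraMap, eval_one, div_one]
    refine ⟨?_, ?_⟩
    · have h1 := alg (gen E).toAffine.Point (fib E t).toAffine.Point sp ?_ ?_ (div E hΔ)
      · exact h1
      · rintro P ⟨q, hq⟩
        obtain ⟨s, hs, c, hc⟩ := hmax P
        by_cases hdb : ∃ Q, s = Q + Q
        · obtain ⟨Q, hQ⟩ := hdb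
          refine ⟨Q + c, ?_⟩
          rw [hc, hQ]
          abel
        · exfalso
          refine hd s (Finset.mem_filter.mpr ⟨hs, hdb⟩) ⟨q - sp c, ?_⟩
          have h2 : sp P = sp s + (sp c + sp c) := by
            rw [hc, map_add, map_add]
          have h3 : sp s = sp P - (sp c + sp c) := by
            rw [h2]
            abel
          rw [h3, hq]
          abel
      · intro q hq
        rcases (tor1 q).mp hq with h0 | ⟨y', h', hq'⟩
        · exact ⟨0, add_zero 0, by rw [map_zero, h0]⟩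
        · obtain ⟨y₀, hy₀, -, -⟩ := gor2
          obtain ⟨y₁, -, -, hy₁⟩ := tor2
          refine ⟨.some (algebraMap ℚ[X] (RatFunc ℚ) e) y₀ hy₀, ?_, ?_⟩
          · exact (gor1 _).mpr (Or.inr ⟨y₀, hy₀, rfl⟩)
          · obtain ⟨h'', he''⟩ := hsp.1 _ y₀ hy₀ hden
            rw [he'', hq']
            have e1 := hy₁ y' h'
            have h3 : (fib E t).toAffine.Nonsingular (e.eval t) (ev t y₀) := by
              rw [← hev]
              exact h''
            have e2 := hy₁ (ev t y₀) h3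
            simp only [WeierstrassCurve.Affine.Point.some.injEq]
            exact ⟨hev, by rw [e1, e2]⟩
    · exact rk2 (fib E t).toAffine.Point (fg (fib E t) ht.1 (2 * 2 ^ R) hI) tor3 R hI
  have hinf : ({t : ℚ | (fib E t).Δ ≠ 0 ∧ ¬ IsSquare ((a ^ 2 - 4 * b).eval t) ∧
      Ix (fib E t).toAffine.Point (2 * 2 ^ R) ∧ Sep B t n} \
      ((Z ∪ b.roots.toFinset : Finset ℚ) : Set ℚ)).Infinite :=
    (hT n).sdiff (Finset.finite_toSet _)
  have hrk : rk (gen E) = R := by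
    obtain ⟨t, ht⟩ := hinf.nonempty
    obtain ⟨h1, h2⟩ := hcomp t ht
    exact le_antisymm (h1.trans h2) hle
  refine ⟨hrk, hinf.mono ?_⟩
  intro t ht
  obtain ⟨h1, h2⟩ := hcomp t ht
  refine ⟨ht.1.1, ?_⟩
  rw [hrk] at h1 ⊢
  exact le_antisymm h2 h1

end Pool.Agent.G02.H64
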