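import Mathlib
import Pool.Agent.G02.Stmts

/-! Squad G02, row SUB (helper64): supports in recipe B. -/

set_option autoImplicit false

namespace Pool.Agent.G02.H64

open Pool.Agent.G02

theorem leg_sq_mul (l : ℕ) [hl : Fact l.Prime] (c x : ℤ) (hc : ¬ (l : ℤ) ∣ c) :
    legendreSym l (c ^ 2 * x) = legendreSym l x := by
  rw [legendreSym.mul]
  have h : ((c : ℤ) : ZMod l) ≠ 0 := fun h => hc ((ZMod.intCast_zmod_eq_zero_iff_dvd _ _).1 h)
  rw [pow_two, legendreSym.mul, ← pow_two, legendreSym.sq_one l h, one_mul]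

theorem sub (hLH : LhStmt) : SubStmt := by
  intro k p q r hR d M e N B
  have key : ∀ a b a₁' b₁' c x : ℤ, Qt a b d M e N B → ∀ l : ℕ, l.Prime → l ≠ 2 → l ≠ q →
      (l : ℤ) ∣ d → (l : ℤ) ∣ k → (∀ k' : ℤ, k = l * k' → a = l * (k' * a₁')) →
      (∀ k' : ℤ, k = l * k' → b = (l : ℤ) ^ 2 * (k' ^ 2 * b₁')) →
      a₁' ^ 2 - 4 * b₁' = (c * q) ^ 2 * x → (¬ (l : ℤ) ∣ c) →
      (∀ [Fact l.Prime], legendreSym l x = -1) → False := by
    intro a b a₁' b₁' c x hQ l hl h2 hq hd ⟨k', hk'⟩ ha hb hc hlc hx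
    have : Fact l.Prime := ⟨hl⟩
    refine hLH a b d M e N B hQ l (k' * a₁') (k' ^ 2 * b₁') h2 (ha k' hk') (hb k' hk') ?_ hd
    have h1 : (k' * a₁') ^ 2 - 4 * (k' ^ 2 * b₁') = (k' * (c * q)) ^ 2 * x := by
      calc (k' * a₁') ^ 2 - 4 * (k' ^ 2 * b₁') = k' ^ 2 * (a₁' ^ 2 - 4 * b₁') := by ring
        _ = (k' * (c * q)) ^ 2 * x := by rw [hc]; ring
    rw [h1, leg_sq_mul l _ _ ?_]
    · exact hx
    · have hp : Prime (l : ℤ) := Nat.prime_iff_prime_int.1 hl
      intro h
      rcases hp.dvd_or_dvd h with h | h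
      · have h3 : (l : ℤ) * l ∣ k := by
          rw [hk']
          exact mul_dvd_mul_left _ h
        exact hp.not_isUnit (hR.sqf _ h3)
      · rcases hp.dvd_or_dvd h with h | h
        · exact hlc h
        · exact hq ((Nat.prime_dvd_prime_iff_eq hl hR.pq).1 (Int.natCast_dvd_natCast.1 h))
  have hlp : ∀ l : ℕ, l.Prime → l ≠ 2 → ¬ (l : ℤ) ∣ 2 := by
    intro l hl h2 h
    have h3 : l ∣ 2 := by exact_mod_cast h
    exact h2 ((Nat.prime_dvd_prime_iff_eq hl Nat.prime_two).1 h3)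
  have hr : (r : ℤ) = p + 2 * q := hR.hr
  refine ⟨?_, ?_⟩
  · intro hQ l hl hd
    have hp : Prime (l : ℤ) := Nat.prime_iff_prime_int.1 hl
    by_contra hno
    push Not at hno
    obtain ⟨n2, np, nq, -⟩ := hno
    have hb : (l : ℤ) ∣ 2 * k ^ 2 * p * q ^ 3 := by
      have h := hd.trans (Dvd.intro _ hQ.hb.symm)
      exact (dvd_neg).1 h
    have hk : (l : ℤ) ∣ k := by
      rcases hp.dvd_or_dvd hb with h | h
      · rcases hp.dvd_or_dvd h with h | h
        · rcases hp.dvd_or_dvd h with h | h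
          · exact absurd h (hlp l hl n2)
          · exact hp.dvd_of_dvd_pow h
        · exact absurd ((Nat.prime_dvd_prime_iff_eq hl hR.pp).1 (Int.natCast_dvd_natCast.1 h)) np
      · exact absurd ((Nat.prime_dvd_prime_iff_eq hl hR.pq).1 (Int.natCast_dvd_natCast.1
          (hp.dvd_of_dvd_pow h))) nq
    refine key _ _ (-(2 * p * q)) (-(2 * p * q ^ 3)) 2 (p * r) hQ l hl n2 nq hd hk ?_ ?_ ?_
      (hlp l hl n2) ?_
    · intro k' h
      rw [h]; ring
    · intro k' h
      rw [h]; ring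
    · rw [hr]; ring
    · intro hf
      exact (hR.leg l n2 hk).2
  · intro hQ l hl hd
    have hp : Prime (l : ℤ) := Nat.prime_iff_prime_int.1 hl
    by_contra hno
    push Not at hno
    obtain ⟨n2, np, nq, nr⟩ := hno
    have hb : (l : ℤ) ∣ 4 * k ^ 2 * p * q ^ 2 * r := hd.trans (Dvd.intro _ hQ.hb.symm)
    have hk : (l : ℤ) ∣ k := by
      rcases hp.dvd_or_dvd hb with h | h
      · rcases hp.dvd_or_dvd h with h | h
        · rcases hp.dvd_or_dvd h with h | h
          · rcases hp.dvd_or_dvd h with h | h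
            · have h4 : (4 : ℤ) = 2 * 2 := by norm_num
              rw [h4] at h
              rcases hp.dvd_or_dvd h with h | h
              · exact absurd h (hlp l hl n2)
              · exact absurd h (hlp l hl n2)
            · exact hp.dvd_of_dvd_pow h
          · exact absurd ((Nat.prime_dvd_prime_iff_eq hl hR.pp).1 (Int.natCast_dvd_natCast.1 h)) np
        · exact absurd ((Nat.prime_dvd_prime_iff_eq hl hR.pq).1 (Int.natCast_dvd_natCast.1
            (hp.dvd_of_dvd_pow h))) nq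
      · exact absurd ((Nat.prime_dvd_prime_iff_eq hl hR.pr).1 (Int.natCast_dvd_natCast.1 h)) nr
    refine key _ _ (4 * p * q) (4 * p * q ^ 2 * r) 4 (-(2 * p * q)) hQ l hl n2 nq hd hk ?_ ?_ ?_
      ?_ ?_
    · intro k' h
      rw [h]; ring
    · intro k' h
      rw [h]; ring
    · rw [hr]; ring
    · intro h
      have h4 : (4 : ℤ) = 2 * 2 := by norm_num
      rw [h4] at h
      rcases hp.dvd_or_dvd h with h | h
      · exact absurd h (hlp l hl n2)
      · exact absurd h (hlp l hl n2)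
    · intro hf
      exact (hR.leg l n2 hk).1

end Pool.Agent.G02.H64
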